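import Mathlib
import Pool.Agent.Lib.MP_e6ed9e_al.NS.Clauses47
import Pool.Agent.Lib.MP_e6ed9e_al.Index
import Pool.Agent.Lib.MP_e6ed9e_al.Polar.All39
import Pool.Agent.Lib.MP_e6ed9e_al.Polar.Bridge39
import Pool.Agent.Lib.MP_e6ed9e_al.Polar.EmbH88
import Pool.Agent.Lib.MP_e6ed9e_al.Polar.EmbQA88

/-!
# MP_e6ed9e_al : the groups of the classical geometries are not spreading

`GeometricAction G Ω` lists the actions of the group `G` on a set `Ω` which is identified, by a
bijection `e`, with a set of points, subspaces, forms or edges, such that `G` permutes certain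
subsets of `Ω`, and the actions with a small submodule or with an intransitive subgroup of small
index. In no case is a transitive group `G` spreading.
-/

namespace Pool.Agent.Results.MP_e6ed9e_al.ClassicalActions

open Module SpreadPerm

/-- Singular vectors and perpendicular pairs of vectors. -/
structure Geo (V : Type) where
  S : V → Prop
  P : V → V → Prop

section

variable {F V : Type} [Field F] [AddCommGroup V] [Module F V]

/-- The geometry of an alternating form: all vectors are singular. -/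
def altGeo (B : V →ₗ[F] V →ₗ[F] F) : Geo V := ⟨fun _ => True, fun x y => B x y = 0⟩

/-- The geometry of a quadratic form. -/
def quadGeo (Q : QuadraticForm F V) : Geo V :=
  ⟨fun x => Q x = 0, fun x y => QuadraticMap.polar Q x y = 0⟩

/-- The geometry of a hermitian form. -/
def hermGeo {σ : F →+* F} (h : V →ₗ[F] V →ₛₗ[σ] F) : Geo V :=
  ⟨fun x => h x x = 0, fun x y => h x y = 0⟩

/-- The types of forms. -/
inductive Kind
  | alternating
  | quadratic
  | hermitian

/-- The geometries of the nondegenerate alternating, quadratic and hermitian forms. -/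
inductive Classical (F : Type) {V : Type} [Field F] [AddCommGroup V] [Module F V] :
    Kind → Geo V → Prop
  | alt (B : V →ₗ[F] V →ₗ[F] F) (hB : ∀ x, B x x = 0) (hn : ∀ x, (∀ y, B x y = 0) → x = 0) :
      Classical F Kind.alternating (altGeo B)
  | quad (Q : QuadraticForm F V)
      (hn : ∀ x, Q x = 0 → (∀ y, QuadraticMap.polar Q x y = 0) → x = 0) :
      Classical F Kind.quadratic (quadGeo Q)
  | herm (σ : F →+* F) (h2 : ∀ a, σ (σ a) = a) (h1 : ∃ a, σ a ≠ a)
      (h : V →ₗ[F] V →ₛₗ[σ] F) (hh : ∀ x y, h y x = σ (h x y))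
      (hn : ∀ x, (∀ y, h x y = 0) → x = 0) : Classical F Kind.hermitian (hermGeo h)

/-- The points of the projective space with representatives in `S`. -/
def Pts (F : Type) {V : Type} [Field F] [AddCommGroup V] [Module F V] (S : Set V) : Type :=
  {p : Projectivization F V // p.rep ∈ S}

/-- The form `f` is nondegenerate. -/
def Nondeg (f : V → V → F) : Prop := ∀ x, (∀ y, f x y = 0) → x = 0

/-- The totally singular subspaces of dimension `k`. -/
def Singular (F : Type) {V : Type} [Field F] [AddCommGroup V] [Module F V] (g : Geo V) (k : ℕ) :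
    Set (Submodule F V) :=
  {W | finrank F W = k ∧ ∀ x ∈ W, g.S x ∧ ∀ y ∈ W, g.P x y}

end

section

variable (G : Type) {Ω F V : Type} [Group G] [MulAction G Ω] [Field F] [AddCommGroup V]
  [Module F V]

/-- The group permutes the sections of `Pts F S` by the hyperplanes perpendicular to the nonzero
vectors in `Z` (the singular vectors). -/
def PermSections {S : Set V} (Z : Set V) (perp : V → V → Prop) (e : Ω ≃ Pts F S) : Prop :=
  ∀ (g : G) (x : V), x ∈ Z → x ≠ 0 → ∃ x' ∈ Z, ∀ ω : Ω,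
    perp x (e ω).1.rep ↔ perp x' (e (g • ω)).1.rep

/-- The group permutes the stars `{W ∈ 𝒲 : x ∈ W}`, `x ≠ 0`, of a set `𝒲` of subspaces. -/
def PermStars {𝒲 : Set (Submodule F V)} (e : Ω ≃ 𝒲) : Prop :=
  ∀ (g : G) (x : V), x ≠ 0 → ∃ x' : V, ∀ ω : Ω, x ∈ (e ω).1 ↔ x' ∈ (e (g • ω)).1

/-- The group maps each star `{W ∈ 𝒲 : x ∈ W}`, `x ≠ 0`, to a star or to a costar
`{W ∈ 𝒲 : W ≤ H}`, where `H` is the kernel of a linear form. -/
def PermStarsDual {𝒲 : Set (Submodule F V)} (e : Ω ≃ 𝒲) : Prop :=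
  ∀ (g : G) (x : V), x ≠ 0 → (∃ x' : V, ∀ ω : Ω, x ∈ (e ω).1 ↔ x' ∈ (e (g • ω)).1) ∨
    (∃ l : V →ₗ[F] F, ∀ ω : Ω, x ∈ (e ω).1 ↔ (e (g • ω)).1 ≤ LinearMap.ker l)

end

/-- The actions on the classical geometries, and the actions with a small submodule or with an
intransitive subgroup of small index; `n` is the number of points. -/
inductive GeometricAction (G Ω : Type) [Group G] [MulAction G Ω] : Prop
  /-- (1) The points of a polar space of rank at least two; the group preserves collinearity. -/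
  | polarPoints (F V : Type) [Field F] [Finite F] [AddCommGroup V] [Module F V] [Finite V]
      (t : Kind) (g : Geo V) (hg : Classical F t g) (hr : (Singular F g 2).Nonempty)
      (e : Ω ≃ Pts F {x | g.S x})
      (hG : ∀ (a : G) (p q : Ω), g.P (e p).1.rep (e q).1.rep →
        g.P (e (a • p)).1.rep (e (a • q)).1.rep)
  /-- (2) The points with values in a set `C` of nonzero values, closed under multiplication by
  nonzero squares; quadratic forms. -/
  | quadraticPoints (F V : Type) [Field F] [Finite F] [AddCommGroup V] [Module F V] [Finite V]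
      (Q : QuadraticForm F V) (hnd : Nondeg fun x y => QuadraticMap.polar Q x y)
      (hn : 4 ≤ finrank F V) (C : Set F) (hC : C.Nonempty)
      (hC' : ∀ t ∈ C, t ≠ 0 ∧ ∀ a : F, a ≠ 0 → t * a ^ 2 ∈ C)
      (e : Ω ≃ Pts F {x | Q x ∈ C})
      (hG : PermSections G {x | Q x = 0} (fun x y => QuadraticMap.polar Q x y = 0) e)
  /-- (3) The nonisotropic points of a hermitian space. -/
  | hermitianPoints (F V : Type) [Field F] [Finite F] [AddCommGroup V] [Module F V] [Finite V]
      (g : Geo V) (hg : Classical F Kind.hermitian g) (hn : 4 ≤ finrank F V)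
      (e : Ω ≃ Pts F {x | ¬ g.S x}) (hG : PermSections G {x | g.S x} g.P e)
  /-- (4) The quadratic forms in a set `S` of forms with one and the same nondegenerate polar form,
  closed under the isometries of the polar form; characteristic two, at least four field
  elements. -/
  | quadraticForms (F V : Type) [Field F] [Finite F] [AddCommGroup V] [Module F V] [Finite V]
      (h2 : (2 : F) = 0) (h4 : 4 ≤ Nat.card F) (hn : 4 ≤ finrank F V)
      (S : Set (QuadraticForm F V)) (hne : S.Nonempty)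
      (hS : ∀ Q ∈ S, ∀ Q' ∈ S, ∀ x y, QuadraticMap.polar Q x y = QuadraticMap.polar Q' x y)
      (hnd : ∀ Q ∈ S, Nondeg fun x y => QuadraticMap.polar Q x y)
      (hS' : ∀ Q ∈ S, ∀ g : V ≃ₗ[F] V,
        (∀ x y, QuadraticMap.polar Q (g x) (g y) = QuadraticMap.polar Q x y) →
        Q.comp g.toLinearMap ∈ S)
      (e : Ω ≃ S) (hG : ∀ (g : G) (x : V), x ≠ 0 → ∃ x' : V, ∀ ω : Ω,
        (e ω).1 x = 0 ↔ (e (g • ω)).1 x' = 0)
  /-- (5) The totally singular subspaces of dimension `k ≥ 2`, and `k ≥ 3` for hermitian forms. -/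
  | singularSubspaces (F V : Type) [Field F] [Finite F] [AddCommGroup V] [Module F V]
      [Finite V] (t : Kind) (g : Geo V) (hg : Classical F t g) (k : ℕ) (hk : 2 ≤ k)
      (hk' : t = Kind.hermitian → 3 ≤ k) (hW : (Singular F g k).Nonempty)
      (e : Ω ≃ Singular F g k) (hG : PermStars G e)
  /-- (6) A set `𝒲` of subspaces, closed under the isometries `g` of a quadratic form with
  `g x - x` singular for all `x`, with a totally singular member of dimension at least four (for
  example one of the two families of maximal subspaces of a hyperbolic space). -/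
  | quadraticFamilies (F V : Type) [Field F] [Finite F] [AddCommGroup V] [Module F V]
      [Finite V] (Q : QuadraticForm F V)
      (hnd : ∀ x, Q x = 0 → (∀ y, QuadraticMap.polar Q x y = 0) → x = 0)
      (𝒲 : Set (Submodule F V)) (h𝒲 : ∀ W ∈ 𝒲, ∀ g : V ≃ₗ[F] V, (∀ x, Q (g x) = Q x) →
        (∀ x, Q (g x - x) = 0) → W.map g.toLinearMap ∈ 𝒲)
      (W₀ : Submodule F V) (hW₀ : W₀ ∈ 𝒲) (h4 : 4 ≤ finrank F W₀) (hW : ∀ x ∈ W₀, Q x = 0)
      (e : Ω ≃ 𝒲) (hG : PermStars G e)
  /-- (7) A set `𝒲` of subspaces, closed under isometry (`q` is any function on `V × V`, in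
  particular a form or the zero function), a member `U` of dimension at least two, and a plane `T`
  disjoint from `U` which does not change the values of `q` on `U`. -/
  | isometricSubspaces (F V : Type) [Field F] [Finite F] [AddCommGroup V] [Module F V] [Finite V]
      (q : V → V → F) (𝒲 : Set (Submodule F V))
      (h𝒲 : ∀ U ∈ 𝒲, ∀ W : Submodule F V,
        (∃ e : U ≃ₗ[F] W, ∀ x y, q (e x) (e y) = q x y) → W ∈ 𝒲)
      (U : Submodule F V) (hU : U ∈ 𝒲) (hU2 : 2 ≤ finrank F U)
      (T : Submodule F V) (hT : finrank F T = 2) (hUT : Disjoint U T)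
      (hq : ∀ u ∈ U, ∀ u' ∈ U, ∀ t ∈ T, ∀ t' ∈ T, q (u + t) (u' + t') = q u u')
      (e : Ω ≃ 𝒲) (hG : PermStarsDual G e)
  /-- (8) The edges of a graph (`E` is a set of unordered pairs) which contains a cycle of even
  length `2 r`, with the vertices `a 0, b 0, a 1, b 1, ...`; the group permutes the stars of the
  vertices (for example pairs of incident or of complementary subspaces and groups with
  correlations, flags of generalized polygons, 2-subsets). -/
  | edges (X : Type) (E : Set (Sym2 X)) (r : ℕ) (hr : 2 ≤ r) (a b : ZMod r → X)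
      (ha : Function.Injective a) (hb : Function.Injective b) (hab : ∀ i j, a i ≠ b j)
      (h1 : ∀ i, s(a i, b i) ∈ E) (h2 : ∀ i, s(b i, a (i + 1)) ∈ E)
      (e : Ω ≃ E) (hG : ∀ (g : G) (x : X), ∃ x' : X, ∀ ω : Ω,
        x ∈ (e ω).1 ↔ x' ∈ (e (g • ω)).1)
  /-- (9) A set `S` of more than one and less than `n` points generates a submodule of dimension `d`
  of the rational permutation module, `(|S| + 1) ^ d < 2 ^ n`. -/
  | smallSubmodule (hG : Finite G) (S : Finset Ω) (h1 : 1 < S.card) (h2 : S.card < Nat.card Ω)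
      (h : (S.card + 1) ^ finrank ℚ (gen G (S : Set Ω)) < 2 ^ Nat.card Ω)
  /-- (10) An intransitive subgroup has index `m`, `n ^ m < 2 ^ n`. -/
  | smallIndex (hG : Finite G) (K : Subgroup G) (hK : ¬ MulAction.IsPretransitive K Ω)
      (h : Nat.card Ω ^ K.index < 2 ^ Nat.card Ω)

/-- A statement about all actions on `Ω'` holds for the action on `Ω` transported by `e`. -/
theorem transport {G Ω Ω' : Type} [Group G] [Fintype Ω] [MulAction G Ω]
    [MulAction.IsPretransitive G Ω] (e : Ω ≃ Ω')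
    (h : ∀ (_ : Fintype Ω') (_ : MulAction G Ω') (_ : MulAction.IsPretransitive G Ω'),
      (∀ (g : G) (x : Ω), g • e x = e (g • x)) → NonSpreading G Ω') : NonSpreading G Ω := by
  let i1 : Fintype Ω' := Fintype.ofEquiv Ω e
  let i2 : MulAction G Ω' := e.symm.mulAction G
  have hsm : ∀ (g : G) (x : Ω), g • e x = e (g • x) := fun g x => by
    show e (g • e.symm (e x)) = e (g • x)
    rw [e.symm_apply_apply]
  have i3 : MulAction.IsPretransitive G Ω' := ⟨fun p q => by
    obtain ⟨g, hg⟩ := MulAction.exists_smul_eq G (e.symm p) (e.symm q)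
    refine ⟨g, ?_⟩
    show e (g • e.symm p) = q
    rw [hg, e.apply_symm_apply]⟩
  exact Pool.Agent.Lib.MP_e6ed9e_al.Polar.nonSpreading_congr e (fun g x => (hsm g x).symm)
    (h i1 i2 i3 hsm)

theorem change_fintype {G Ω : Type} [Group G] [MulAction G Ω] (i j : Fintype Ω)
    (h : @NonSpreading G _ Ω i _) : @NonSpreading G _ Ω j _ := by
  rwa [Subsingleton.elim j i]

theorem polar_main (F V : Type) [Field F] [Finite F] [AddCommGroup V] [Module F V] [Finite V]
    (t : Kind) (g : Geo V) (hg : Classical F t g) (hr : (Singular F g 2).Nonempty)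
    {G Ω : Type} [Group G] [Fintype Ω] [MulAction G Ω] [MulAction.IsPretransitive G Ω]
    (e : Ω ≃ Pts F {x | g.S x})
    (hG : ∀ (a : G) (p q : Ω), g.P (e p).1.rep (e q).1.rep →
      g.P (e (a • p)).1.rep (e (a • q)).1.rep) : NonSpreading G Ω := by
  have hmain : PolarSp.StMain :=
    Pool.Agent.Lib.MP_e6ed9e_al.Polar.bridge39
      Pool.Agent.Lib.MP_e6ed9e_al.Polar.stWitt13
      Pool.Agent.Lib.MP_e6ed9e_al.Polar.embA88
      Pool.Agent.Lib.MP_e6ed9e_al.Polar.embQ88
      Pool.Agent.Lib.MP_e6ed9e_al.Polar.embH88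
      Pool.Agent.Lib.MP_e6ed9e_al.Polar.stFinal
  have hcl : PolarSp.Classical F (⟨g.S, g.P⟩ : PolarSp.Geo V) := by
    cases hg with
    | alt B hB hn => exact PolarSp.Classical.alt B hB hn
    | quad Q hn => exact PolarSp.Classical.quad Q hn
    | herm σ h2 h1 h hh hn => exact PolarSp.Classical.herm σ h2 h1 h hh hn
  obtain ⟨M, hM2, hM⟩ := hr
  let e' : Ω ≃ PolarSp.Pt F (⟨g.S, g.P⟩ : PolarSp.Geo V) := e
  refine transport e' ?_
  intro i1 i2 i3 hsm
  refine change_fintype _ _ (hmain F V ⟨g.S, g.P⟩ hcl ⟨M, hM, hM2⟩ G ?_)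
  intro a p q hpq
  obtain ⟨p, rfl⟩ := e'.surjective p
  obtain ⟨q, rfl⟩ := e'.surjective q
  rw [hsm, hsm]
  exact hG a p q hpq

/-- From the theorems about sets of subspaces. -/
theorem stars_main {F V : Type} [Field F] [AddCommGroup V] [Module F V]
    (𝒲 𝒲' : Set (Submodule F V)) (hW : ∀ W, W ∈ 𝒲 ↔ W ∈ 𝒲')
    (h : NS.Clauses47.NoneSpreading 𝒲') {G Ω : Type} [Group G] [Fintype Ω] [MulAction G Ω]
    [MulAction.IsPretransitive G Ω] (e : Ω ≃ 𝒲) (hG : PermStars G e) : NonSpreading G Ω := by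
  obtain rfl : 𝒲 = 𝒲' := Set.ext hW
  refine transport e ?_
  intro i1 i2 i3 hsm
  refine h G ?_
  intro g x hx0
  obtain ⟨x', h⟩ := hG g x hx0
  refine ⟨x', fun p => ?_⟩
  obtain ⟨p, rfl⟩ := e.surjective p
  rw [hsm]
  exact h p

theorem herm_isotropic {F V : Type} [Field F] [Finite F] [AddCommGroup V] [Module F V]
    (σ : F →+* F) (h2 : ∀ a, σ (σ a) = a) (h1 : ∃ a, σ a ≠ a)
    (h : V →ₗ[F] V →ₛₗ[σ] F) (hh : ∀ x y, h y x = σ (h x y)) (W : Submodule F V)
    (hW : ∀ x ∈ W, h x x = 0) : ∀ x ∈ W, ∀ y ∈ W, h x y = 0 := by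
  intro x hx y hy
  obtain ⟨w, hw⟩ := NS.tr_half h2 h1 1 (map_one σ)
  have e1 := hW _ (W.add_mem hx (W.smul_mem (h x y * w) hy))
  have e2 : h (x + (h x y * w) • y) (x + (h x y * w) • y) =
      h x x + σ (h x y * w) * h x y + (h x y * w) * h y x +
        (h x y * w) * (σ (h x y * w) * h y y) := by
    rw [LinearMap.map_add h, LinearMap.add_apply, LinearMap.map_smul h, map_add, map_add,
      LinearMap.smul_apply, LinearMap.smul_apply, LinearMap.map_smulₛₗ (h x),
      LinearMap.map_smulₛₗ (h y)]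
    simp only [smul_eq_mul]
    ring
  rw [e2, hW x hx, hW y hy, hh x y, map_mul] at e1
  have e3 : (h x y * σ (h x y)) * (w + σ w) = 0 := by linear_combination e1
  rw [hw, mul_one] at e3
  rcases mul_eq_zero.1 e3 with e4 | e4
  · exact e4
  · exact (map_eq_zero σ).1 e4

theorem singular_main (F V : Type) [Field F] [Finite F] [AddCommGroup V] [Module F V]
    [Finite V] (t : Kind) (g : Geo V) (hg : Classical F t g) (k : ℕ) (hk : 2 ≤ k)
    (hk' : t = Kind.hermitian → 3 ≤ k) (hW : (Singular F g k).Nonempty)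
    {G Ω : Type} [Group G] [Fintype Ω] [MulAction G Ω] [MulAction.IsPretransitive G Ω]
    (e : Ω ≃ Singular F g k) (hG : PermStars G e) : NonSpreading G Ω := by
  cases hg with
  | alt B hB hn =>
    have hset : ∀ W : Submodule F V, W ∈ Singular F (altGeo B) k ↔
        W ∈ {W : Submodule F V | finrank F W = k ∧ ∀ x ∈ W, ∀ y ∈ W, B x y = 0} :=
      fun W => ⟨fun h => ⟨h.1, fun x hx => (h.2 x hx).2⟩, fun h => ⟨h.1, fun x hx =>
        ⟨trivial, h.2 x hx⟩⟩⟩
    obtain ⟨W₀, hW₀⟩ := hW
    exact stars_main _ _ hset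
      (NS.Clauses47.symplecticSubspaces F V B hB hn k hk ⟨W₀, (hset W₀).1 hW₀⟩) e hG
  | quad Q hn =>
    have hset : ∀ W : Submodule F V, W ∈ Singular F (quadGeo Q) k ↔
        W ∈ {W : Submodule F V | finrank F W = k ∧ ∀ x ∈ W, Q x = 0} :=
      fun W => ⟨fun h => ⟨h.1, fun x hx => (h.2 x hx).1⟩, fun h => ⟨h.1, fun x hx =>
        ⟨h.2 x hx, (NS.Clauses47.ts_qf Q W h.2).2 x hx⟩⟩⟩
    obtain ⟨W₀, hW₀⟩ := hW
    exact stars_main _ _ hset
      (NS.Clauses47.quadraticSubspaces F V Q hn k hk ⟨W₀, (hset W₀).1 hW₀⟩) e hG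
  | herm σ h2 h1 h hh hn =>
    have hset : ∀ W : Submodule F V, W ∈ Singular F (hermGeo h) k ↔
        W ∈ {W : Submodule F V | finrank F W = k ∧ ∀ x ∈ W, h x x = 0} :=
      fun W => ⟨fun h' => ⟨h'.1, fun x hx => (h'.2 x hx).1⟩, fun h' => ⟨h'.1, fun x hx =>
        ⟨h'.2 x hx, herm_isotropic σ h2 h1 h hh W h'.2 x hx⟩⟩⟩
    obtain ⟨W₀, hW₀⟩ := hW
    exact stars_main _ _ hset
      (NS.Clauses47.hermitianSubspaces F V σ h2 h1 h hh hn k (hk' rfl)
        ⟨W₀, (hset W₀).1 hW₀⟩) e hG

theorem forms_main (F V : Type) [Field F] [Finite F] [AddCommGroup V] [Module F V] [Finite V]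
    (h2 : (2 : F) = 0) (h4 : 4 ≤ Nat.card F) (hn : 4 ≤ finrank F V)
    (S : Set (QuadraticForm F V)) (hne : S.Nonempty)
    (hS : ∀ Q ∈ S, ∀ Q' ∈ S, ∀ x y, QuadraticMap.polar Q x y = QuadraticMap.polar Q' x y)
    (hnd : ∀ Q ∈ S, Nondeg fun x y => QuadraticMap.polar Q x y)
    (hS' : ∀ Q ∈ S, ∀ g : V ≃ₗ[F] V,
      (∀ x y, QuadraticMap.polar Q (g x) (g y) = QuadraticMap.polar Q x y) →
      Q.comp g.toLinearMap ∈ S)
    {G Ω : Type} [Group G] [Fintype Ω] [MulAction G Ω] [MulAction.IsPretransitive G Ω]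
    (e : Ω ≃ S) (hG : ∀ (g : G) (x : V), x ≠ 0 → ∃ x' : V, ∀ ω : Ω,
      (e ω).1 x = 0 ↔ (e (g • ω)).1 x' = 0) : NonSpreading G Ω := by
  obtain ⟨Q₀, hQ₀⟩ := hne
  let B : V →ₗ[F] V →ₗ[F] F := QuadraticMap.polarBilin Q₀
  have hB : ∀ x y, B x y = QuadraticMap.polar Q₀ x y := fun x y => rfl
  have _ : Fintype F := Fintype.ofFinite F
  let u : S ≃ NS.Forms B S :=
    { toFun := fun Q => ⟨Q.1, fun x y => hS Q.1 Q.2 Q₀ hQ₀ x y, Q.2⟩
      invFun := fun Q => ⟨Q.1, Q.2.2⟩
      left_inv := fun _ => rfl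
      right_inv := fun _ => rfl }
  let e' : Ω ≃ NS.Forms B S := e.trans u
  refine transport e' ?_
  intro i1 i2 i3 hsm
  refine NS.stForms97 F V B h2 (by rwa [← Nat.card_eq_fintype_card]) ?_ ?_ hn S ?_ G
    ⟨u ⟨Q₀, hQ₀⟩⟩ ?_
  · intro x
    rw [hB, QuadraticMap.polar_self, nsmul_eq_mul, Nat.cast_ofNat, h2, zero_mul]
  · intro x hx
    exact hnd Q₀ hQ₀ x hx
  · intro Q hQ g hg
    refine hS' Q hQ g fun x y => ?_
    rw [hS Q hQ Q₀ hQ₀, hS Q hQ Q₀ hQ₀]
    exact hg x y
  · intro g x hx0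
    obtain ⟨x', h⟩ := hG g x hx0
    refine ⟨x', fun p => ?_⟩
    obtain ⟨p, rfl⟩ := e'.surjective p
    rw [hsm]
    exact h p

/-- No transitive group which acts as in `GeometricAction` is spreading. -/
theorem result (G Ω : Type) [Group G] [Fintype Ω] [MulAction G Ω]
    [MulAction.IsPretransitive G Ω] (h : GeometricAction G Ω) : NonSpreading G Ω := by
  cases h with
  | polarPoints F V t g hg hr e hG => exact polar_main F V t g hg hr e hG
  | quadraticPoints F V Q hnd hn C hC hC' e hG =>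
    let e' : Ω ≃ NS.Clauses47.Pts F {x | Q x ∈ C} := e
    refine transport e' ?_
    intro i1 i2 i3 hsm
    refine change_fintype _ _ (NS.Clauses47.quadraticPoints F V Q hnd hn C hC hC' G ?_)
    intro g x hx hx0
    obtain ⟨x', hx', h⟩ := hG g x hx hx0
    refine ⟨x', hx', fun p => ?_⟩
    obtain ⟨p, rfl⟩ := e'.surjective p
    rw [hsm]
    exact h p
  | hermitianPoints F V g hg hn e hG =>
    cases hg with
    | herm σ h2 h1 h hh hnd =>
      let e' : Ω ≃ NS.Clauses47.Pts F {x | h x x ≠ 0} := e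
      refine transport e' ?_
      intro i1 i2 i3 hsm
      refine change_fintype _ _ (NS.Clauses47.hermitianPoints F V σ h2 h1 h hh hnd hn G ?_)
      intro g x hx hx0
      obtain ⟨x', hx', h⟩ := hG g x hx hx0
      refine ⟨x', hx', fun p => ?_⟩
      obtain ⟨p, rfl⟩ := e'.surjective p
      rw [hsm]
      exact h p
  | quadraticForms F V h2 h4 hn S hne hS hnd hS' e hG =>
    exact forms_main F V h2 h4 hn S hne hS hnd hS' e hG
  | singularSubspaces F V t g hg k hk hk' hW e hG =>
    exact singular_main F V t g hg k hk hk' hW e hG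
  | quadraticFamilies F V Q hnd 𝒲 h𝒲 W₀ hW₀ h4 hW e hG =>
    exact stars_main 𝒲 𝒲 (fun _ => Iff.rfl)
      (NS.Clauses47.quadraticFamilies F V Q hnd 𝒲 h𝒲 W₀ hW₀ h4 hW) e hG
  | isometricSubspaces F V q 𝒲 h𝒲 U hU hU2 T hT hUT hq e hG =>
    refine transport e ?_
    intro i1 i2 i3 hsm
    refine NS.Clauses47.isometricSubspaces F V q 𝒲 h𝒲 U hU hU2 T hT hUT hq G ?_
    intro g x hx0
    rcases hG g x hx0 with ⟨x', h⟩ | ⟨l, h⟩
    · refine Or.inl ⟨x', fun p => ?_⟩
      obtain ⟨p, rfl⟩ := e.surjective p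
      rw [hsm]
      exact h p
    · refine Or.inr ⟨l, fun p => ?_⟩
      obtain ⟨p, rfl⟩ := e.surjective p
      rw [hsm]
      exact h p
  | edges X E r hr a b ha hb hab h1 h2 e hG =>
    refine transport e ?_
    intro i1 i2 i3 hsm
    refine NS.edge47 X E r hr a b ha hb hab h1 h2 G ?_
    intro g x
    obtain ⟨x', h⟩ := hG g x
    refine ⟨x', fun p => ?_⟩
    obtain ⟨p, rfl⟩ := e.surjective p
    rw [hsm]
    exact h p
  | smallSubmodule hG S h1 h2 h =>
    rw [Nat.card_eq_fintype_card] at h2 h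
    exact nonspreading_of_small S h1 h2 h
  | smallIndex hG K hK h =>
    rw [Nat.card_eq_fintype_card] at h
    by_contra hn
    exact absurd (index_bound hn K hK) (not_le.2 h)

end Pool.Agent.Results.MP_e6ed9e_al.ClassicalActions
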