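import Mathlib
import Pool.Agent.Lib.MP_e6ed9e_al.NS.Hex44
import Pool.Agent.Lib.MP_e6ed9e_al.NS.HexLines84
import Pool.Agent.Lib.MP_e6ed9e_al.NS.Triality25
import Pool.Agent.Lib.MP_e6ed9e_al.NS.OctClause29
import Pool.Agent.Lib.MP_e6ed9e_al.EX.All67
import Pool.Agent.Lib.MP_e6ed9e_al.EX.LongRoots67
import Pool.Agent.Lib.MP_e6ed9e_al.EX.Twisted67
import Pool.Agent.Lib.MP_e6ed9e_al.EX.E7Main15

/-!
# MP_e6ed9e_al : actions of the exceptional groups of Lie type are not spreading

`ExceptionalAction G Ω` lists the actions of the group `G` on a set `Ω` which is identified, by a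
bijection `e`, with a set of points or lines of a geometry of exceptional type, such that `G`
permutes certain subsets of `Ω`. In no case is a transitive group `G` spreading.
-/

namespace Pool.Agent.Results.MP_e6ed9e_al.ExceptionalActions

open SpreadPerm

/-! ## Generalized hexagons -/

/-- The points of the generalized hexagon of order `(q, q ^ 3)` (the group `³D₄(q)`), `q = |F|`,
`E` is the cubic extension of `F`; `t` is in `E` or `∞` (`none`). -/
inductive TriPoint (F E : Type) : Type
  | p0 : TriPoint F E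
  | p2 (t : Option E) (u : F) : TriPoint F E
  | p4 (t : Option E) (s : E) (u z : F) : TriPoint F E
  | p6 (p : F) (r s : E) (u z : F) : TriPoint F E

/-- The lines of this hexagon. -/
inductive TriLine (F E : Type) : Type
  | l1 (t : Option E) : TriLine F E
  | l3 (t : Option E) (s : E) (u : F) : TriLine F E
  | l5 (t : Option E) (r s : E) (u z : F) : TriLine F E

/-- The adjoint `t ^ (q + q ^ 2)` of the cubic extension, `q = |F|`. -/
noncomputable def adj (F : Type) {E : Type} [Field E] (t : E) : E :=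
  t ^ Nat.card F * (t ^ Nat.card F) ^ Nat.card F

/-- The polar form of the adjoint. -/
noncomputable def cross (F : Type) {E : Type} [Field E] (t r : E) : E :=
  t ^ Nat.card F * (r ^ Nat.card F) ^ Nat.card F +
    (t ^ Nat.card F) ^ Nat.card F * r ^ Nat.card F

/-- The incidence relation of this hexagon, in the coordinates of the unipotent radical of the
stabilizer of the point `p0`. -/
def TriInc {F E : Type} [Field F] [Field E] [Algebra F E] : TriPoint F E → TriLine F E → Prop
  | .p0, .l1 _ => True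
  | .p2 t _, .l1 t' => t = t'
  | .p2 t u, .l3 t' _ u' => t = t' ∧ u' = u
  | .p4 t s u _, .l3 t' s' u' => t = t' ∧ s = s' ∧ u = u'
  | .p4 t s u z, .l5 t' r s' u' z' =>
      t = t' ∧ s' = s ∧ u' = u ∧ z' - Algebra.trace F E (s' * r) = z
  | .p6 p r s _ z, .l5 none r' s' u' z' =>
      s = r' ∧ r = s' ∧ p = u' ∧ z + Algebra.trace F E (r * s) = z'
  | .p6 p r s u z, .l5 (some t) r' s' u' z' =>
      r - algebraMap F E p * t = r' ∧
      s - cross F t r + algebraMap F E p * adj F t = s' ∧
      u - Algebra.trace F E (t * s) + Algebra.trace F E (adj F t * r) - Algebra.norm F t * p =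
        u' ∧
      z + u * p - p * Algebra.trace F E (t * s) + 2 * p * Algebra.trace F E (adj F t * r) -
        2 * Algebra.norm F t * p ^ 2 - Algebra.trace F E (t * adj F r) = z'
  | _, _ => False

/-! ## Generalized octagons -/

/-- The incidence graph of the incidence relation `I`. -/
def incGraph {Ω Λ : Type} (I : Ω → Λ → Prop) : SimpleGraph (Ω ⊕ Λ) where
  Adj a b := (∃ p l, I p l ∧ a = Sum.inl p ∧ b = Sum.inr l) ∨
    (∃ p l, I p l ∧ b = Sum.inl p ∧ a = Sum.inr l)
  symm := ⟨fun _ _ h => h.elim Or.inr Or.inl⟩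
  loopless := ⟨by
    rintro a (⟨p, l, -, rfl, h⟩ | ⟨p, l, -, rfl, h⟩) <;> simp at h⟩

/-- The distance of two points in the incidence graph. -/
noncomputable def dpp {Ω Λ : Type} (I : Ω → Λ → Prop) (p q : Ω) : ℕ :=
  (incGraph I).dist (Sum.inl p) (Sum.inl q)

/-- A generalized octagon of order `(s, t)` with points `Ω`, lines `Λ` and incidence `I`: the
distances in the incidence graph are at most `8`, and if two elements `v`, `w` have distance less
than `8` and are different, exactly one element incident with `w` is nearer to `v` than `w`. -/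
structure IsOctagon {Ω Λ : Type} (I : Ω → Λ → Prop) (s t : ℕ) : Prop where
  line : ∀ l, {p | I p l}.ncard = s + 1
  point : ∀ p, {l | I p l}.ncard = t + 1
  conn : (incGraph I).Connected
  diam : ∀ v w, (incGraph I).dist v w ≤ 8
  uniq : ∀ v w, v ≠ w → (incGraph I).dist v w < 8 →
    ∃! w', (incGraph I).Adj w w' ∧ (incGraph I).dist v w' < (incGraph I).dist v w

/-- A path from the point `z` at distance `4` from `x` over the line `m` to the point `r` at
distance `6` from `x`, which is collinear with the point `p₀` opposite `x`; the homomorphism `lam`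
is trivial on the stabilizer of the line `m` and surjective on the stabilizer of the point `z`. -/
structure RootPath {Ω Λ : Type} (I : Ω → Λ → Prop) (x p₀ : Ω) {U A : Type} [Group U]
    [MulAction U Ω] [MulAction U Λ] [CommGroup A] (lam : U →* A) where
  (z r : Ω) (m n : Λ)
  hz : dpp I x z = 4
  hr : dpp I x r = 6
  zm : I z m
  rm : I r m
  rn : I r n
  pn : I p₀ n
  ker : ∀ u : U, u • m = m → lam u = 1
  sur : ∀ c : A, ∃ u : U, u • z = z ∧ lam u = c

/-! ## The modules of dimension 27 and 56 -/

section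
variable {F : Type} [Field F]

/-- The standard symplectic form. -/
def J : Matrix (Fin 6) (Fin 6) F :=
  EX.wedge (Pi.single 0 1) (Pi.single 1 1) + EX.wedge (Pi.single 2 1) (Pi.single 3 1) +
    EX.wedge (Pi.single 4 1) (Pi.single 5 1)

/-- The linear forms in the span of `l₀` and `l` have nonzero norm, and `l` is not in the span
of `l₀`. -/
def Aniso (l₀ l : EX.V F) : Prop :=
  EX.Alt l.2.1 ∧ (∀ s t : F, s • l₀ + t • l = 0 → t = 0) ∧
    ∀ s t : F, s • l₀ + t • l ≠ 0 → EX.Nd (s • l₀ + t • l) ≠ 0

/-- The white points `x` with `l₀(x) = 0`: the points of the variety of `E₆(q)` if `l₀ = 0`, and of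
`F₄(q)` if `l₀ = (0, J, 0)`. -/
def Points27 (l₀ : EX.V F) : Type :=
  {p : Projectivization F (EX.V F) // p.rep ∈ {x : EX.V F | EX.White x ∧ EX.ev l₀ x = 0}}

/-- The point `p` is in the hyperplane `l = 0`. -/
def On {l₀ : EX.V F} (l : EX.V F) (p : Points27 l₀) : Prop := EX.ev l p.1.rep = 0

/-- `l₀ = 0` or `l₀ = (0, J, 0)`. -/
def Base (l₀ : EX.V F) : Prop := l₀ = 0 ∨ l₀ = (0, J, 0)

/-- The subspaces of dimension 6 of white vectors `x` with `l₀(x) = 0`. -/
def Subspaces27 (l₀ : EX.V F) : Type :=
  {W : Submodule F (EX.V F) // Module.finrank F W = 6 ∧ ∀ x ∈ W, EX.White x ∧ EX.ev l₀ x = 0}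

/-- The vector `x` is in the subspace `W`. -/
def In {l₀ : EX.V F} (x : EX.V F) (W : Subspaces27 l₀) : Prop := x ∈ W.1

/-- Exchange of `0` and `1`, `2` and `3`, `4` and `5`. -/
def sw : Fin 6 → Fin 6 := ![1, 0, 3, 2, 5, 4]

/-- The unitary polarity: the linear form attached to a vector. -/
def pol (σ : F →+* F) (x : EX.V F) : EX.V F :=
  (fun i => σ (x.2.2 (sw i)), fun i j => σ (x.2.1 (sw i) (sw j)), fun i => σ (x.1 (sw i)))

/-- The trilinear form of the cubic form. -/
def tri (x y z : EX.V F) : F :=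
  EX.Nd (x + y + z) - EX.Nd (x + y) - EX.Nd (y + z) - EX.Nd (x + z) + EX.Nd x + EX.Nd y + EX.Nd z

/-- `y` is perpendicular to `W`. -/
def Perp (σ : F →+* F) (W : Submodule F (EX.V F)) (y : EX.V F) : Prop :=
  EX.Alt y.2.1 ∧ ∀ x ∈ W, EX.ev (pol σ x) y = 0

/-- The subspaces `W` of dimension 6 of white vectors, isotropic and fixed by the unitary
polarity. -/
def TwistedSubspaces (σ : F →+* F) : Type :=
  {W : Submodule F (EX.V F) // Module.finrank F W = 6 ∧ (∀ x ∈ W, EX.White x ∧ Perp σ W x) ∧
    ∀ x ∈ W, ∀ y z, Perp σ W y → Perp σ W z → tri x y z = 0}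

/-- Absolute points: white vectors incident with their polar. -/
def Absolute (σ : F →+* F) (p : EX.V F) : Prop :=
  p ≠ 0 ∧ EX.White p ∧
    ∃ y : EX.V F, EX.Alt y.2.1 ∧ ∀ z : EX.V F, EX.Alt z.2.1 → tri p y z = EX.ev (pol σ p) z

/-- The vector `x` is in the subspace `W`. -/
def InT {σ : F →+* F} (x : EX.V F) (W : TwistedSubspaces σ) : Prop := x ∈ W.1

/-- The alternating eight by eight matrices. -/
def A8 (F : Type) [Field F] : Submodule F (Matrix (Fin 8) (Fin 8) F) where
  carrier := {X | (∀ i, X i i = 0) ∧ ∀ i j, X i j = -X j i}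
  zero_mem' := ⟨fun _ => rfl, fun _ _ => by simp⟩
  add_mem' := fun {X Y} hX hY => ⟨fun i => by rw [Matrix.add_apply, hX.1, hY.1, add_zero],
    fun i j => by rw [Matrix.add_apply, Matrix.add_apply, hX.2 i j, hY.2 i j, neg_add]⟩
  smul_mem' := fun t X hX => ⟨fun i => by rw [Matrix.smul_apply, hX.1, smul_zero],
    fun i j => by rw [Matrix.smul_apply, Matrix.smul_apply, hX.2 i j, smul_neg]⟩

/-- The module of dimension 56. -/
def V56 (F : Type) [Field F] : Type := A8 F × A8 F

instance : AddCommGroup (V56 F) := inferInstanceAs (AddCommGroup (A8 F × A8 F))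

instance : Module F (V56 F) := inferInstanceAs (Module F (A8 F × A8 F))

/-- The Pfaffian of a four by four submatrix. -/
def pf (X : Matrix (Fin 8) (Fin 8) F) (a b c d : Fin 8) : F :=
  X a b * X c d - X a c * X b d + X a d * X b c

/-- The alternating form of the module of dimension 56. -/
def frm (x y : V56 F) : F :=
  ∑ i, ∑ j, if i < j then x.1.1 i j * y.2.1 i j - x.2.1 i j * y.1.1 i j else 0

/-- White vectors: `X * Y` is a scalar matrix and the four by four Pfaffians of `X` and `Y` for
complementary sets of indices agree up to the sign. -/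
def White (x : V56 F) : Prop :=
  (∃ c : F, x.1.1 * x.2.1 = Matrix.scalar (Fin 8) c) ∧
  ∀ σ : Equiv.Perm (Fin 8), pf x.1.1 (σ 0) (σ 1) (σ 2) (σ 3) =
    (((Equiv.Perm.sign σ : ℤˣ) : ℤ) : F) * pf x.2.1 (σ 4) (σ 5) (σ 6) (σ 7)

/-- The white points of the module of dimension 56. -/
def Points56 (F : Type) [Field F] : Type :=
  {p : Projectivization F (V56 F) // p.rep ∈ {x : V56 F | White x}}

/-- The map `f` is induced by a semilinear similitude `φ` which permutes the white vectors. -/
def Similitude (f : Points56 F → Points56 F) : Prop :=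
  ∃ (σ : F ≃+* F) (φ : V56 F ≃+ V56 F) (c : F), c ≠ 0 ∧
    (∀ (t : F) (x : V56 F), φ (t • x) = σ t • φ x) ∧
    (∀ x y, frm (φ x) (φ y) = c * σ (frm x y)) ∧ (∀ x, White (φ x) ↔ White x) ∧
    ∀ p : Points56 F, ∃ t : F, φ p.1.rep = t • (f p).1.rep

end

/-- Two lines meet; `I` is the incidence relation between points and lines. -/
def Meet {P Ω : Type} (I : P → Ω → Prop) (l m : Ω) : Prop := ∃ x, I x l ∧ I x m

/-- The actions on the exceptional geometries. -/
inductive ExceptionalAction (G Ω : Type) [Group G] [MulAction G Ω] : Prop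
  /-- (1) The lines of the split Cayley hexagon of `G₂(q)`; the group permutes the pencils of
  lines. -/
  | g2Lines (F : Type) [Field F] [Finite F] (e : Ω ≃ NS.HexLine F)
      (hG : ∀ (g : G) (p : NS.HexPoint F), ∃ p' : NS.HexPoint F, ∀ ω : Ω,
        NS.HexInc p (e ω) ↔ NS.HexInc p' (e (g • ω)))
  /-- (2) The points of the hexagon of order `(q, q ^ 3)` of `³D₄(q)`; the group permutes the
  lines. -/
  | trialityHexagon (F E : Type) [Field F] [Finite F] [Field E] [Finite E] [Algebra F E]
      (hE : Module.finrank F E = 3) (e : Ω ≃ TriPoint F E)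
      (hG : ∀ g : G, ∃ f : Equiv.Perm (TriLine F E), ∀ (ω : Ω) (l : TriLine F E),
        TriInc (e ω) l ↔ TriInc (e (g • ω)) (f l))
  /-- (3) The points of a generalized octagon with a group `U` that fixes the point `x` and all
  lines on `x`, is transitive on the points opposite `x`, and has a homomorphism to an abelian group
  `A ≠ 1` as in `RootPath` for two paths (the octagons of `²F₄(q)` have such groups). -/
  | octagon (Λ : Type) [Finite Λ] [MulAction G Λ] (I : Ω → Λ → Prop)
      (hG : ∀ (g : G) (p : Ω) (l : Λ), I p l ↔ I (g • p) (g • l)) (s t : ℕ) (hs : 1 ≤ s)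
      (ht : 1 ≤ t) (hO : IsOctagon I s t) (x p₀ : Ω) (hp₀ : dpp I x p₀ = 8) (U A : Type)
      [Group U] [MulAction U Ω] [MulAction U Λ]
      (hU : ∀ (u : U) (p : Ω) (l : Λ), I p l ↔ I (u • p) (u • l)) (hUx : ∀ u : U, u • x = x)
      (hUl : ∀ (u : U) (l : Λ), I x l → u • l = l)
      (hUt : ∀ p : Ω, dpp I x p = 8 → ∃ u : U, u • p₀ = p)
      [CommGroup A] [Finite A] [Nontrivial A] (lam : U →* A) (v w : RootPath I x p₀ lam)
      (hvw : v.r ≠ w.r)
  /-- (4) The points of the variety of `E₆(q)` (`l₀ = 0`: the singular points of the cubic form in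
  27 variables) and of `F₄(q)` (its section by a hyperplane of nonzero norm); the group permutes
  the sections by the linear forms `l` such that all nonzero forms in the span of `l₀` and `l` have
  nonzero norm. -/
  | exceptionalPoints (F : Type) [Field F] [Finite F] (l₀ : EX.V F) (hl₀ : Base l₀)
      (e : Ω ≃ Points27 l₀)
      (hG : ∀ (g : G) (l : EX.V F), Aniso l₀ l → ∃ l', Aniso l₀ l' ∧ ∀ ω : Ω,
        On l (e ω) ↔ On l' (e (g • ω)))
  /-- (5) The subspaces of dimension 6 of white vectors: the long root groups of `E₆(q)` (`l₀ = 0`)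
  and of `F₄(q)` (`l₀ = (0, J, 0)`, inside the hyperplane); the group permutes the stars of
  vectors. -/
  | exceptionalSubspaces (F : Type) [Field F] [Finite F] (l₀ : EX.V F) (hl₀ : Base l₀)
      (e : Ω ≃ Subspaces27 l₀)
      (hG : ∀ (g : G) (x : EX.V F), ∃ x', ∀ ω : Ω, In x (e ω) ↔ In x' (e (g • ω)))
  /-- (6) The subspaces of dimension 6 of white vectors over the field of `q ^ 2` elements which are
  isotropic and fixed by the unitary polarity (the cubic form vanishes on `W`, `Wᗮ`, `Wᗮ`): the
  long root groups of `²E₆(q)`; the group permutes the stars of absolute points. -/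
  | twistedSubspaces (K : Type) [Field K] [Finite K] (σ : K →+* K) (h2 : ∀ t, σ (σ t) = t)
      (h1 : ∃ t, σ t ≠ t) (e : Ω ≃ TwistedSubspaces σ)
      (hG : ∀ (g : G) (x : EX.V K), Absolute σ x → ∃ x', Absolute σ x' ∧
        ∀ ω : Ω, InT x (e ω) ↔ InT x' (e (g • ω)))
  /-- (7) The white points of the module of dimension 56 of `E₇(q)`; the group consists of
  semilinear similitudes which permute the white vectors. -/
  | e7Points (F : Type) [Field F] [Finite F] (e : Ω ≃ Points56 F)
      (hG : ∀ g : G, ∃ f : Points56 F → Points56 F, Similitude f ∧ ∀ ω : Ω, e (g • ω) = f (e ω))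
  /-- (8) The lines of a geometry with `q + 1` lines on each point and no triangles, in which
  `q ^ 3 + 1` pairwise disjoint lines, not all lines, exist such that each other line meets exactly
  one of them (a distance-3 spread of a generalized hexagon of order `(q, q)`). -/
  | hexagonLines (P : Type) (I : P → Ω → Prop) (q : ℕ) (hq : 2 ≤ q) (p₀ : P)
      (hpt : ∀ p, {l | I p l}.ncard = q + 1)
      (htri : ∀ p m m' s, I p m → I p m' → m ≠ m' → ¬ I p s → Meet I s m → ¬ Meet I s m')
      (S : Set Ω) (hS : S.ncard = q ^ 3 + 1) (hS1 : ∀ l ∈ S, ∀ m ∈ S, l ≠ m → ¬ Meet I l m)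
      (hS2 : ∀ l, l ∉ S → ∃! m, m ∈ S ∧ Meet I l m) (hS3 : ∃ l, l ∉ S)
      (hG : ∀ (g : G) (l m : Ω), Meet I l m ↔ Meet I (g • l) (g • m))

/-! ## Proofs -/

section tri
variable {F E : Type} [Field F] [Field E] [Algebra F E]

def uPt : TriPoint F E ≃ Tri25.Pt (Option E) F (E × F × F) (F × E × E × F × F) where
  toFun
    | .p0 => .inl ()
    | .p2 t u => .inr (.inl (t, u))
    | .p4 t s u z => .inr (.inr (.inl (t, (s, u, z))))
    | .p6 p r s u z => .inr (.inr (.inr (p, r, s, u, z)))
  invFun
    | .inl _ => .p0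
    | .inr (.inl x) => .p2 x.1 x.2
    | .inr (.inr (.inl x)) => .p4 x.1 x.2.1 x.2.2.1 x.2.2.2
    | .inr (.inr (.inr x)) => .p6 x.1 x.2.1 x.2.2.1 x.2.2.2.1 x.2.2.2.2
  left_inv x := by cases x <;> rfl
  right_inv x := by rcases x with x | x | x | x <;> rfl

def uLn : TriLine F E ≃ Tri25.Ln (Option E) (E × F) (E × E × F × F) where
  toFun
    | .l1 t => .inl t
    | .l3 t s u => .inr (.inl (t, (s, u)))
    | .l5 t r s u z => .inr (.inr (t, (r, s, u, z)))
  invFun
    | .inl t => .l1 t
    | .inr (.inl x) => .l3 x.1 x.2.1 x.2.2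
    | .inr (.inr x) => .l5 x.1 x.2.1 x.2.2.1 x.2.2.2.1 x.2.2.2.2
  left_inv x := by cases x <;> rfl
  right_inv x := by rcases x with x | x | x <;> rfl

theorem inc_iff [Fintype F] (x : TriPoint F E) (l : TriLine F E) :
    TriInc x l ↔ Tri25.Inc Tri25.qa Tri25.qb Tri25.qc Tri25.rho (uPt x) (uLn l) := by
  have hc : ∀ t r : E, cross F t r = Tri25.cross F t r := fun t r => by
    unfold cross Tri25.cross
    rw [Nat.card_eq_fintype_card]
  have ha : ∀ t : E, adj F t = Tri25.sharp F t := fun t => by
    unfold adj Tri25.sharp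
    rw [Nat.card_eq_fintype_card]
  cases x with
  | p0 => cases l <;> exact Iff.rfl
  | p2 t u => cases l <;> exact Iff.rfl
  | p4 t s u z =>
    cases l with
    | l1 t' => exact Iff.rfl
    | l3 t' s' u' =>
      show (t = t' ∧ s = s' ∧ u = u') ↔ (t = t' ∧ (s, u) = (s', u'))
      rw [Prod.mk.injEq]
    | l5 t' r s' u' z' =>
      show (t = t' ∧ s' = s ∧ u' = u ∧ z' - Algebra.trace F E (s' * r) = z) ↔
        (t = t' ∧ (s', u', z' - Algebra.trace F E (s' * r)) = (s, u, z))
      rw [Prod.mk.injEq, Prod.mk.injEq]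
  | p6 p r s u z =>
    cases l with
    | l1 t' => exact Iff.rfl
    | l3 t' s' u' => exact Iff.rfl
    | l5 t' r' s' u' z' =>
      cases t' with
      | none =>
        show (s = r' ∧ r = s' ∧ p = u' ∧ z + Algebra.trace F E (r * s) = z') ↔
          (s, r, p, z + Algebra.trace F E (r * s)) = (r', s', u', z')
        rw [Prod.mk.injEq, Prod.mk.injEq, Prod.mk.injEq]
      | some t =>
        show (r - algebraMap F E p * t = r' ∧
          s - cross F t r + algebraMap F E p * adj F t = s' ∧
          u - Algebra.trace F E (t * s) + Algebra.trace F E (adj F t * r) -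
            Algebra.norm F t * p = u' ∧
          z + u * p - p * Algebra.trace F E (t * s) +
            2 * p * Algebra.trace F E (adj F t * r) - 2 * Algebra.norm F t * p ^ 2 -
            Algebra.trace F E (t * adj F r) = z') ↔
          (r - algebraMap F E p * t,
            s - Tri25.cross F t r + algebraMap F E p * Tri25.sharp F t,
            u - Algebra.trace F E (t * s) + Algebra.trace F E (Tri25.sharp F t * r) -
              Algebra.norm F t * p,
            z + u * p - p * Algebra.trace F E (t * s) +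
              2 * p * Algebra.trace F E (Tri25.sharp F t * r) - 2 * Algebra.norm F t * p ^ 2 -
              Algebra.trace F E (t * Tri25.sharp F r)) = (r', s', u', z')
        rw [Prod.mk.injEq, Prod.mk.injEq, Prod.mk.injEq, hc, ha, ha]

end tri

def toRootPath {Ω Λ : Type} {I : Ω → Λ → Prop} {x p₀ : Ω} {U A : Type} [Group U]
    [MulAction U Ω] [MulAction U Λ] [CommGroup A] {lam : U →* A} (v : RootPath I x p₀ lam) :
    NS.RootPath I x p₀ lam :=
  ⟨v.z, v.r, v.m, v.n, v.hz, v.hr, v.zm, v.rm, v.rn, v.pn, v.ker, v.sur⟩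

/-- No transitive group which acts as in `ExceptionalAction` is spreading. -/
theorem result (G Ω : Type) [Group G] [Fintype Ω] [MulAction G Ω]
    [MulAction.IsPretransitive G Ω] (h : ExceptionalAction G Ω) : NonSpreading G Ω := by
  cases h with
  | g2Lines F e hG =>
    have _ : Fintype F := Fintype.ofFinite F
    exact NS.hexLines84 Ω e G hG
  | trialityHexagon F E hE e hG =>
    have _ : Fintype F := Fintype.ofFinite F
    have _ : Fintype E := Fintype.ofFinite E
    refine Tri25.triality25 hE (e.trans uPt) fun g => ?_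
    obtain ⟨f, hf⟩ := hG g
    refine ⟨(uLn.symm.trans f).trans uLn, fun ω l => ?_⟩
    obtain ⟨l, rfl⟩ := uLn.surjective l
    show _ ↔ Tri25.Inc Tri25.qa Tri25.qb Tri25.qc Tri25.rho (uPt (e (g • ω)))
      (uLn (f (uLn.symm (uLn l))))
    rw [uLn.symm_apply_apply, ← inc_iff]
    exact (inc_iff _ _).symm.trans (hf ω l)
  | octagon Λ I hG s t hs ht hO x p₀ hp₀ U A hU hUx hUl hUt lam v w hvw =>
    exact NS.octagon_clause Λ I hG s t hs ht ⟨hO.line, hO.point, hO.conn, hO.diam, hO.uniq⟩ x p₀
      hp₀ U A hU hUx hUl hUt lam (toRootPath v) (toRootPath w) hvw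
  | exceptionalPoints F l₀ hl₀ e hG => exact EX.exceptional67 l₀ hl₀ e hG
  | exceptionalSubspaces F l₀ hl₀ e hG => exact EX.longRoots67 l₀ hl₀ e hG
  | twistedSubspaces K σ h2 h1 e hG => exact EX.Tw.twisted67 σ h2 h1 e hG
  | e7Points F e hG =>
    have _ : Fintype F := Fintype.ofFinite F
    refine E7.e7 e fun g => ?_
    obtain ⟨f, ⟨σ, φ, c, h1, h2, h3, h4, h5⟩, h6⟩ := hG g
    have h7 : ∀ ω : Ω, ∃ t : F, φ (e ω).1.rep = t • (e (g • ω)).1.rep := fun ω => by
      rw [h6]
      exact h5 (e ω)
    exact ⟨σ, φ, c, h1, h2, h3, h4, h7⟩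
  | hexagonLines P I q hq p₀ hpt htri S hS hS1 hS2 hS3 hG =>
    classical
    obtain ⟨l₀, hl₀⟩ := hS3
    refine NS.hex44 P Ω I q hq hpt htri S.toFinset ?_ ?_ ?_ ?_ p₀ G hG
    · rw [← Set.ncard_eq_toFinset_card', hS]
    · intro l hl m hm
      exact hS1 l (Set.mem_toFinset.1 hl) m (Set.mem_toFinset.1 hm)
    · intro l hl
      obtain ⟨m, hm, hu⟩ := hS2 l (fun h => hl (Set.mem_toFinset.2 h))
      exact ⟨m, ⟨Set.mem_toFinset.2 hm.1, hm.2⟩, fun m' hm' =>
        hu m' ⟨Set.mem_toFinset.1 hm'.1, hm'.2⟩⟩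
    · intro h
      have : l₀ ∈ S.toFinset := by
        rw [h]
        exact Finset.mem_univ _
      exact hl₀ (Set.mem_toFinset.1 this)

end Pool.Agent.Results.MP_e6ed9e_al.ExceptionalActions
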