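import Pool.Agent.Lib.MP_e6ed9e_al.PL.SFinal47
import Pool.Agent.Lib.MP_e6ed9e_al.PL.QI2_1
import Pool.Agent.Lib.MP_e6ed9e_al.LG.GAll47

/-!
# MP_e6ed9e_al : all actions of the groups with socle `PSL(n,q)`

Every spreading action of a group with socle `PSL(n,q)`, `n ≥ 3`, `q` large, is 2-transitive; every
spreading action of a group with socle `PSL(2,q)`, `q ≥ 10000`, is QI.
-/

namespace Pool.Agent.Results.MP_e6ed9e_al.LinearSocles

open MulAction SpreadPerm Module

/-- `f` is a semilinear bijection of `V`. -/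
def Semilinear (F V : Type) [Field F] [AddCommGroup V] [Module F V] (f : Equiv.Perm V) : Prop :=
  (∀ v w : V, f (v + w) = f v + f w) ∧ ∃ σ : F ≃+* F, ∀ (c : F) (v : V), f (c • v) = σ c • f v

/-- The group `G` acts on the set of the subspaces of `V` through `ρ`, every element as a
semilinear bijection of `V` or as a correlation (a semilinear bijection `f` from `V` to its dual
maps the subspace `W` to the intersection of the kernels of the `f w`, `w ∈ W`), and all elements of
the special linear group occur. And `G` acts on `Ω`, trivially for the elements that fix all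
subspaces, not trivially for those that act as the special linear group. So `G` modulo the kernel
of `ρ` is a group with socle `PSL(V)` (any such group if `dim V ≥ 3`) and acts faithfully on
`Ω`. -/
structure LinearSocle (F V G Ω : Type) [Field F] [AddCommGroup V] [Module F V] [Group G]
    [MulAction G Ω] (ρ : G →* Equiv.Perm (Submodule F V)) : Prop where
  geometric : ∀ g : G,
    (∃ f : Equiv.Perm V, Semilinear F V f ∧
      ∀ (W : Submodule F V) (v : V), f v ∈ ρ g W ↔ v ∈ W) ∨
    ∃ (σ : F ≃+* F) (f : V ≃ (V →ₗ[F] F)), (∀ v w : V, f (v + w) = f v + f w) ∧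
      (∀ (c : F) (v : V), f (c • v) = σ c • f v) ∧
      ∀ (W : Submodule F V) (v : V), v ∈ ρ g W ↔ ∀ w ∈ W, f w v = 0
  specialLinear : ∀ s : V ≃ₗ[F] V, LinearEquiv.det s = 1 →
    ∃ g : G, ∀ (W : Submodule F V) (v : V), s v ∈ ρ g W ↔ v ∈ W
  kernel : ∀ g : G, ρ g = 1 → ∀ ω : Ω, g • ω = ω
  nontrivial : ∃ (g : G) (s : V ≃ₗ[F] V), LinearEquiv.det s = 1 ∧
    (∀ (W : Submodule F V) (v : V), s v ∈ ρ g W ↔ v ∈ W) ∧ ∃ ω : Ω, g • ω ≠ ω

/-- The group `G` acts on `F²` by semilinear maps, among them all linear maps of determinant one,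
and it acts on `Ω`, trivially for the elements that act on `F²` as scalars, not trivially for those
that act on `F²` as linear maps of determinant one. So `G` modulo the elements that act on `F²` as
scalars is a group between `PSL(2,F)` and `PΓL(2,F)` and acts faithfully on `Ω`. -/
structure LinearFractional (F G Ω : Type) [Field F] [Group G] [DistribMulAction G (Fin 2 → F)]
    [MulAction G Ω] : Prop where
  semilinear : ∀ g : G, ∃ σ : F ≃+* F, ∀ (c : F) (v : Fin 2 → F), g • (c • v) = σ c • (g • v)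
  specialLinear : ∀ m : Matrix (Fin 2) (Fin 2) F, m.det = 1 →
    ∃ g : G, ∀ v : Fin 2 → F, g • v = m.mulVec v
  scalars : ∀ g : G, (∃ c : F, ∀ v : Fin 2 → F, g • v = c • v) → ∀ ω : Ω, g • ω = ω
  nontrivial : ∃ (g : G) (m : Matrix (Fin 2) (Fin 2) F), m.det = 1 ∧
    (∀ v : Fin 2 → F, g • v = m.mulVec v) ∧ ∃ ω : Ω, g • ω ≠ ω

/-- `G` is QI on `Ω`: the functions `Ω → ℚ` with sum zero have no proper nonzero `G`-submodule. -/
def QI (G Ω : Type) [Group G] [Fintype Ω] [MulAction G Ω] : Prop :=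
  ∀ W : Submodule ℚ (Ω → ℚ), (∀ w ∈ W, ∑ i, w i = 0) →
    (∀ (g : G), ∀ w ∈ W, (fun i => w (g⁻¹ • i)) ∈ W) →
    W = ⊥ ∨ ∀ w : Ω → ℚ, ∑ i, w i = 0 → w ∈ W

/-- (a) Socle `PSL(n,q)`, `n ≥ 3`: a spreading transitive action of a group with socle `PSL(n,q)`,
`1600 n ^ 6 (⌊log₂ q⌋ + 1) ^ 2 ≤ q`, is 2-transitive, hence QI, and the group has no correlations. -/
def LinearActions : Prop := ∀ (F V G Ω : Type) [Field F] [Fintype F] [AddCommGroup V] [Module F V]
  [Finite V] [Group G] [Finite G] [Fintype Ω] [MulAction G Ω] [IsPretransitive G Ω]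
  (ρ : G →* Equiv.Perm (Submodule F V)), LinearSocle F V G Ω ρ → 3 ≤ finrank F V →
  1600 * finrank F V ^ 6 * (Nat.log 2 (Fintype.card F) + 1) ^ 2 ≤ Fintype.card F →
  Spreading G Ω →
  QI G Ω ∧ IsMultiplyPretransitive G Ω 2 ∧ ∀ g : G, ∃ f : Equiv.Perm V, Semilinear F V f ∧
    ∀ (W : Submodule F V) (v : V), f v ∈ ρ g W ↔ v ∈ W

/-- (b) Socle `PSL(2,q)`: a spreading transitive action of a group between `PSL(2,q)` and
`PΓL(2,q)`, `q ≥ 10000`, is QI: it is 2-transitive, or `q` is even, `q - 1` is prime and the degree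
is `q (q - 1) / 2`. -/
def LineActions : Prop := ∀ (F G Ω : Type) [Field F] [Fintype F] [Group G] [Finite G] [Fintype Ω]
  [DistribMulAction G (Fin 2 → F)] [MulAction G Ω] [IsPretransitive G Ω],
  LinearFractional F G Ω → 10000 ≤ Fintype.card F → Spreading G Ω →
  QI G Ω ∧ (IsMultiplyPretransitive G Ω 2 ∨
    (ringChar F = 2 ∧ (Fintype.card F - 1).Prime ∧
      2 * Fintype.card Ω = Fintype.card F * (Fintype.card F - 1)))

/-- All actions of the groups with socle `PSL(n,q)`, `n ≥ 2` (`q` large). -/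
theorem result : LinearActions ∧ LineActions := by
  refine ⟨?_, ?_⟩
  · intro F V G Ω _ _ _ _ _ _ _ _ _ _ ρ h hn hq hs
    have hq' : 1600 * finrank F V ^ 6 * (Nat.log 2 (Nat.card F) + 1) ^ 2 ≤ Nat.card F := by
      rw [Nat.card_eq_fintype_card]
      exact hq
    have hto : ∀ s : V ≃ₗ[F] V, LG.toA F V s ∈ LG.GamL F V := fun s =>
      ⟨fun v w => map_add s v w, RingEquiv.refl F, fun c v => map_smul s c v⟩
    have hS : LG.Soc F V G Ω ρ := by
      refine ⟨h.geometric, fun s hs => ?_, h.kernel, ?_⟩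
      · obtain ⟨g, hg⟩ := h.specialLinear s hs
        exact ⟨g, hto s, hg⟩
      · obtain ⟨g, s, hs, hg, hne⟩ := h.nontrivial
        exact ⟨g, s, hs, ⟨hto s, hg⟩, hne⟩
    obtain ⟨h1, h2⟩ := LG.mainG47 F V G Ω ρ hS hn hq' hs
    exact ⟨PL.qi2_1 G Ω h1, h1, h2⟩
  · intro F G Ω _ _ _ _ _ _ _ _ h hq hs
    have hA : PL.SAct F G Ω := by
      refine ⟨h.semilinear, fun m hm => h.specialLinear m.1 hm, h.scalars, ?_⟩
      obtain ⟨g, m, hm, hgm, hne⟩ := h.nontrivial
      exact ⟨g, Matrix.GeneralLinearGroup.mk'' m (by rw [hm]; exact isUnit_one), hm, hgm, hne⟩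
    exact PL.sfinal47 F G Ω hA hq hs

end Pool.Agent.Results.MP_e6ed9e_al.LinearSocles
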