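import Pool.Agent.Lib.MP_e6ed9e_al.Sym.Main

namespace Pool.Agent.Results.MP_e6ed9e_al.SymmetricAlternating

open SpreadPerm MulAction

/-- Let `G` be the alternating or the symmetric group of degree `m ≥ 1000` (any group between the
two). Every transitive action of `G` of degree at least three that is spreading is isomorphic to
the natural action; in particular it is 2-transitive. -/
theorem result (α : Type*) [Fintype α] [DecidableEq α] (hm : 1000 ≤ Fintype.card α)
    (G : Subgroup (Equiv.Perm α)) (hG : alternatingGroup α ≤ G)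
    (Ω : Type*) [Fintype Ω] [MulAction G Ω] [MulAction.IsPretransitive G Ω]
    (hn : 3 ≤ Fintype.card Ω) (hsp : Spreading G Ω) :
    (∃ e : Ω ≃ α, ∀ (g : G) (w : Ω), e (g • w) = (g : Equiv.Perm α) (e w)) ∧
      IsMultiplyPretransitive G Ω 2 := by
  obtain ⟨e, he⟩ := natural_of_spreading hm hG hn hsp
  refine ⟨⟨e, he⟩, ⟨fun f f' => ?_⟩⟩
  have h2 := multiply_of_alt hG 2 (by omega)
  obtain ⟨g, hg⟩ := h2.exists_smul_eq (f.trans e.toEmbedding) (f'.trans e.toEmbedding)
  refine ⟨g, ?_⟩
  ext i
  have h3 : (g : Equiv.Perm α) (e (f i)) = e (f' i) := DFunLike.congr_fun hg i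
  show g • f i = f' i
  apply e.injective
  rw [he, h3]

end Pool.Agent.Results.MP_e6ed9e_al.SymmetricAlternating
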